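import Pool.Agent.W852.FG.Final
import Pool.Agent.W852.FG.Pos
import Pool.Agent.W852.FG.Quench
import Pool.Agent.W852.FG.Moment
import Pool.Agent.W782.FG.Split
import Pool.Agent.W782.FG.Chain
import Pool.Agent.W782.FG.GF
import Pool.Agent.W782.FG.Mk
import Pool.Agent.W782.FG.Ind
import Pool.Agent.W930.FG.Score
import Pool.Agent.W930.FG.Pot
import Pool.Agent.W930.FG.Blk
import Pool.Agent.W45.FG.Meas
import Pool.Agent.W605.FG.Dom
import Pool.Agent.W363.FG.Lim
import Pool.Agent.W363.FG.MomX
import Pool.Agent.W591.FG.Comp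
import Pool.Agent.W591.FG.W
import Pool.Agent.W591.FG.Wpos
import Pool.Agent.W591.FG.Key
import Pool.Agent.W578.FG.Pt
import Pool.Agent.W636.FG.MomP

/-!
# A transient regime exists for the frog model on every supercritical Galton-Watson tree

For every offspring law `p` on the nonnegative integers with mean in `(1, ∞]` there is a
positive density `lam` such that on almost every Galton-Watson tree conditioned on non-extinction
the frog model with Poisson(`lam`) sleeping particles per non-root vertex is transient.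
-/

namespace Pool.Agent.Results.MP_ac6ae5_pr.TransientRegime

open MeasureTheory ProbabilityTheory FrogGW
open scoped ENNReal NNReal

theorem result (p : Measure ℕ) [IsProbabilityMeasure p] (hp : 1 < ∫⁻ k, (k : ℝ≥0∞) ∂p) :
    MeasurableSet Survive ∧ GW p Survive ≠ 0 ∧ ∃ lam : ℝ≥0, 0 < lam ∧
      ∀ᵐ Z ∂(ProbabilityTheory.cond (GW p) Survive), Transient Z lam := by
  have hTr : TaskTree := Pool.Agent.W782.FG.tree
  have hW : TaskW := FrogGW.W591.taskW
  have hWpos : TaskWpos := FrogGW.W591.taskWpos hTr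
  have hGF : TaskGF := Pool.Agent.W782.FG.gf
  have hZero : TaskZero := FrogGW.W591.taskZero hTr hW
  have hE : TaskExt := FrogGW.W591.taskExt hTr hW hWpos hGF hZero
  have hMk : TaskMk := Pool.Agent.W782.FG.mkMain
  have hKap : TaskKappa := Pool.Agent.W782.FG.kappa hMk hGF
  have hInd : TaskInd := Pool.Agent.W782.FG.ind
  have hMomP : TaskMomP := Pool.Agent.W636.FG.momP hMk FrogGW.W578.ptA FrogGW.W578.ptB hInd
  have hMomX : TaskMomX := Pool.Agent.W363.FG.momX hInd
  have hMo : TaskMoment := FrogGW.moment hTr hW hWpos hGF hZero hKap hInd hMomP hMomX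
  have hTA : TaskTA := Pool.Agent.W930.FG.taskTA
  have hMeas : TaskMeas := Pool.Agent.W45.FG.taskMeas
  have hWalk : TaskWalk := Pool.Agent.W45.FG.taskWalk Pool.Agent.W782.FG.seq hMeas
  have hStep : TaskStep := Pool.Agent.W930.FG.taskStep
  have hQ : TaskQuench := FrogGW.quench Pool.Agent.W782.FG.camp hMeas hWalk
    Pool.Agent.W930.FG.taskScore hTA (Pool.Agent.W930.FG.taskPot hTA hStep)
    (Pool.Agent.W930.FG.taskBlk hTA) Pool.Agent.W782.FG.chain Pool.Agent.W605.FG.dom
  have hC : TaskComp := FrogGW.W591.taskComp hTA hW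
  have hL : TaskLim := Pool.Agent.W363.FG.lim hMeas
  obtain ⟨lam, h0, hm, h⟩ := FrogGW.final hTr hW hE hMo hQ hC hL hTA p hp
  refine ⟨hm, FrogGW.survive_pos hW hWpos p hp, lam, h0, ?_⟩
  unfold ProbabilityTheory.cond
  exact Measure.ae_smul_measure ((ae_restrict_iff' hm).2 h) _

end Pool.Agent.Results.MP_ac6ae5_pr.TransientRegime
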